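import Pool.Agent.Helper774_LP.Bridge

/-!
# The differential inequality (MP_f368f5_pr)
-/

set_option autoImplicit false

namespace Pool.Agent.Helper774_LP

open Pool.Agent.Helper712_LP Set MeasureTheory ProbabilityTheory
open Pool.Agent.W826.PB (Ex D wt osss Ex_const Ex_mono Ex_nonneg Ex_add Ex_mul Ex_split)

variable {d : ℕ}

theorem sum_shift (θ τ : ℕ → ℝ) {m n : ℕ} (hmn : m ≤ n) (h0 : ∀ j, 0 ≤ θ j)
    (h : ∀ k j, j + m ≤ k ∨ j + k ≤ m → τ k ≤ θ j) :
    ∑ k ∈ Finset.range n, τ (k + 1) ≤ 2 * ∑ j ∈ Finset.range n, θ j := by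
  obtain ⟨r, rfl⟩ := Nat.exists_eq_add_of_le hmn
  rw [Finset.sum_range_add]
  have h1 : ∑ k ∈ Finset.range m, τ (k + 1) ≤ ∑ j ∈ Finset.range (m + r), θ j := by
    calc ∑ k ∈ Finset.range m, τ (k + 1) ≤ ∑ k ∈ Finset.range m, θ (m - 1 - k) := by
          refine Finset.sum_le_sum fun k hk => h _ _ (Or.inr ?_)
          rw [Finset.mem_range] at hk
          omega
      _ = ∑ k ∈ Finset.range m, θ k := Finset.sum_range_reflect θ m
      _ ≤ _ := Finset.sum_le_sum_of_subset_of_nonneg
          (Finset.range_mono (by omega)) (fun j _ _ => h0 j)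
  have h2 : ∑ k ∈ Finset.range r, τ (m + k + 1) ≤ ∑ j ∈ Finset.range (m + r), θ j := by
    calc ∑ k ∈ Finset.range r, τ (m + k + 1) ≤ ∑ k ∈ Finset.range r, θ k := by
          refine Finset.sum_le_sum fun k hk => h _ _ (Or.inl ?_)
          omega
      _ ≤ _ := Finset.sum_le_sum_of_subset_of_nonneg
          (Finset.range_mono (by omega)) (fun j _ _ => h0 j)
  linarith

theorem par_ok {I : Type} {p : ℝ} (hp0 : 0 ≤ p) (hp1 : p ≤ 1) :
    ∀ _ : I, 0 ≤ p ∧ p ≤ 1 := fun _ => ⟨hp0, hp1⟩

theorem Ex_sum {I : Type} [Fintype I] [DecidableEq I] {J : Type} (s : I → ℝ) (T : Finset J)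
    (F : J → (I → Bool) → ℝ) : Ex s (fun ω => ∑ j ∈ T, F j ω) = ∑ j ∈ T, Ex s (F j) := by
  unfold Ex
  rw [Finset.sum_comm]
  refine Finset.sum_congr rfl fun ω _ => ?_
  rw [Finset.mul_sum]

open Classical in
/-- The sum of the revealment probabilities. -/
theorem reveal_le (hd : 1 ≤ d) (hlaw : S_law) (K : Finset (Fin d → ℤ)) (n : ℕ) {p : ℝ}
    (hp0 : 0 ≤ p) (hp1 : p ≤ 1) (i : dom K n) :
    ∑ k ∈ Finset.range n, Ex (fun _ : dom K n => p) (VI K n (k + 1) i) ≤
      K.card * (1 + (box d 1).card * (2 * ∑ m ∈ Finset.range n, theta d K m p)) := by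
  have hs := par_ok (I := dom K n) hp0 hp1
  set T : ℕ → (Fin d → ℤ) → ℝ := fun k y => Ex (fun _ : dom K n => p) (fun ω =>
      if Touch K n k (ext (dom K n) ω) y then (1 : ℝ) else 0) with hT
  have hθ0 : ∀ j, 0 ≤ theta d K j p := fun j => by unfold theta; exact measureReal_nonneg
  have hTsum : ∀ y : Fin d → ℤ, ∑ k ∈ Finset.range n, T (k + 1) y ≤
      2 * ∑ m ∈ Finset.range n, theta d K m p := by
    intro y
    by_cases hy : nrm y ≤ n
    · exact sum_shift (fun j => theta d K j p) (fun k => T k y) hy hθ0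
        (fun k j hkj => touch_le hd hlaw K n k j hp0 hp1 y hkj)
    · have : ∀ k, T k y = 0 := by
        intro k
        have e : (fun ω : dom K n → Bool =>
            if Touch K n k (ext (dom K n) ω) y then (1 : ℝ) else 0) = fun _ => 0 := by
          funext ω
          rw [if_neg]
          rintro ⟨s, -, hsy⟩
          exact hy (Reach.right hsy).2
        simp only [hT]
        rw [e, Ex_const]
      simp only [this, Finset.sum_const_zero]
      exact mul_nonneg (by norm_num) (Finset.sum_nonneg fun j _ => hθ0 j)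
  have hpt : ∀ k (ω : dom K n → Bool), VI K n k i ω ≤ ∑ k' ∈ K,
      ((if nrm ((i : Fin d → ℤ) - k') = k then (1 : ℝ) else 0) + ∑ e ∈ box d 1,
        (if Touch K n k (ext (dom K n) ω) ((i : Fin d → ℤ) - k' + e) then (1 : ℝ) else 0)) := by
    intro k ω
    have hnn : ∀ k' ∈ K, (0 : ℝ) ≤ (if nrm ((i : Fin d → ℤ) - k') = k then (1 : ℝ) else 0) +
        ∑ e ∈ box d 1,
        (if Touch K n k (ext (dom K n) ω) ((i : Fin d → ℤ) - k' + e) then (1 : ℝ) else 0) := by
      intro k' _
      refine add_nonneg (by split_ifs <;> norm_num) (Finset.sum_nonneg fun e _ => ?_)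
      split_ifs <;> norm_num
    unfold VI
    split_ifs with h
    · obtain ⟨x, hxn, hxK, hx⟩ := h
      refine le_trans ?_ (Finset.single_le_sum hnn hxK)
      have ex : (i : Fin d → ℤ) - (i - x) = x := by abel
      rw [ex]
      rcases hx with hx | ⟨y, hyx, hy⟩
      · rw [if_pos hx]
        have : (0 : ℝ) ≤ ∑ e ∈ box d 1,
            (if Touch K n k (ext (dom K n) ω) (x + e) then (1 : ℝ) else 0) :=
          Finset.sum_nonneg fun e _ => by split_ifs <;> norm_num
        linarith
      · have h1 : (0 : ℝ) ≤ (if nrm x = k then (1 : ℝ) else 0) := by split_ifs <;> norm_num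
        have hmem : y - x ∈ box d 1 := by
          rw [mem_box]
          exact adj_iff.mp hyx
        have h2 := Finset.single_le_sum (f := fun e =>
            (if Touch K n k (ext (dom K n) ω) (x + e) then (1 : ℝ) else 0))
          (fun e _ => by split_ifs <;> norm_num) hmem
        rw [show x + (y - x) = y by abel, if_pos hy] at h2
        linarith
    · exact Finset.sum_nonneg hnn
  have hE : ∀ k, Ex (fun _ : dom K n => p) (VI K n k i) ≤ ∑ k' ∈ K,
      ((if nrm ((i : Fin d → ℤ) - k') = k then (1 : ℝ) else 0) +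
        ∑ e ∈ box d 1, T k ((i : Fin d → ℤ) - k' + e)) := by
    intro k
    refine (Ex_mono hs (hpt k)).trans (le_of_eq ?_)
    rw [Ex_sum]
    refine Finset.sum_congr rfl fun k' _ => ?_
    rw [Ex_add, Ex_const, Ex_sum]
  refine (Finset.sum_le_sum fun k _ => hE (k + 1)).trans ?_
  rw [Finset.sum_comm, ← nsmul_eq_mul]
  refine Finset.sum_le_card_nsmul _ _ _ fun k' _ => ?_
  rw [Finset.sum_add_distrib]
  refine add_le_add ?_ ?_
  · by_cases h : ∃ k ∈ Finset.range n, nrm ((i : Fin d → ℤ) - k') = k + 1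
    · obtain ⟨k, hk, hk'⟩ := h
      rw [Finset.sum_eq_single_of_mem k hk]
      · split_ifs <;> norm_num
      · intro j _ hj
        rw [if_neg]
        omega
    · rw [Finset.sum_eq_zero]
      · norm_num
      · intro k hk
        rw [if_neg]
        intro h'
        exact h ⟨k, hk, h'⟩
  · rw [Finset.sum_comm, ← nsmul_eq_mul]
    exact Finset.sum_le_card_nsmul _ _ _ fun e _ => hTsum _

theorem fI_mono (hd : 1 ≤ d) (K : Finset (Fin d → ℤ)) (n : ℕ) {ω ω' : dom K n → Bool}
    (h : ∀ i, ω i = true → ω' i = true) : fI K n ω ≤ fI K n ω' := by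
  by_cases hc : Conn (vac K (occOf (ext (dom K n) ω))) 0 n
  · have hc' : Conn (vac K (occOf (ext (dom K n) ω'))) 0 n := by
      refine conn_of_agree hd (fun x hx hxn => ?_) hc
      rw [mem_vac] at hx ⊢
      intro k hk
      rw [sub_zero] at hxn
      have hxd := add_mem_dom hxn hk
      have := hx k hk
      rw [ext_mem _ hxd] at this ⊢
      exact h _ this
    unfold fI
    rw [if_pos hc, if_pos hc']
  · have : fI K n ω = 0 := by
      unfold fI
      rw [if_neg hc]
    rw [this]
    exact (fI_mem K n ω').1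

theorem D_nonneg (hd : 1 ≤ d) (K : Finset (Fin d → ℤ)) (n : ℕ) (i : dom K n)
    (ω : dom K n → Bool) : 0 ≤ D i (fI K n) ω := by
  unfold D
  rw [sub_nonneg]
  apply fI_mono hd
  intro j hj
  by_cases hji : j = i
  · subst hji
    simp
  · rw [Function.update_of_ne hji] at hj ⊢
    exact hj

/-- The derivative of `theta`. -/
noncomputable def dth (K : Finset (Fin d → ℤ)) (n : ℕ) (p : ℝ) : ℝ :=
  ∑ i : dom K n, Ex (fun _ : dom K n => p) (D i (fI K n))

theorem hasDeriv (hd : 1 ≤ d) (K : Finset (Fin d → ℤ)) (n : ℕ) {p : ℝ} (hp0 : 0 < p)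
    (hp1 : p < 1) : HasDerivAt (theta d K n) (dth K n p) p := by
  have h := Pool.Agent.W925.PB.Russo.main (dom K n) (fun v _ => v) (fun _ => 1) p (fI K n)
    (fun _ => hasDerivAt_id p)
  have e : ∑ i : dom K n, 1 * Ex (fun _ : dom K n => p) (D i (fI K n)) = dth K n p := by
    unfold dth
    exact Finset.sum_congr rfl fun i _ => one_mul _
  have h' : HasDerivAt (fun v => Ex (fun _ : dom K n => v) (fI K n)) (dth K n p) p := by
    rw [← e]
    exact h
  refine h'.congr_of_eventuallyEq ?_
  filter_upwards [Ioo_mem_nhds hp0 hp1] with v hv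
  exact theta_eq hd K n hv.1.le hv.2.le

theorem osss_theta (hd : 1 ≤ d) (hlaw : S_law) (K : Finset (Fin d → ℤ)) (n : ℕ) {p : ℝ}
    (hp0 : 0 ≤ p) (hp1 : p ≤ 1) :
    n * (theta d K n p * (1 - theta d K n p)) ≤
      K.card * (1 + (box d 1).card * (2 * ∑ m ∈ Finset.range n, theta d K m p)) *
        dth K n p := by
  have hs := par_ok (I := dom K n) hp0 hp1
  set B : ℝ := K.card * (1 + (box d 1).card * (2 * ∑ m ∈ Finset.range n, theta d K m p)) with hB
  have hk : ∀ k ∈ Finset.range n, theta d K n p * (1 - theta d K n p) ≤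
      ∑ i : dom K n, Ex (fun _ : dom K n => p) (VI K n (k + 1) i) *
        Ex (fun _ : dom K n => p) (D i (fI K n)) := by
    intro k hk
    rw [Finset.mem_range] at hk
    have h := osss (s := fun _ : dom K n => p) hs (f := fI K n) (fI_mem K n)
      (V := VI K n (k + 1)) (VI_nonneg K n (k + 1))
      (fun S σ => strategy hd K (by omega) _ S σ)
    have e1 : Ex (fun _ : dom K n => p) (fun ω => fI K n ω * fI K n ω) = theta d K n p := by
      rw [theta_eq hd K n hp0 hp1]
      congr 1
      funext ω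
      exact fI_sq K n ω
    rw [e1, ← theta_eq hd K n hp0 hp1] at h
    have e2 : theta d K n p * (1 - theta d K n p) =
        theta d K n p - theta d K n p * theta d K n p := by ring
    rw [e2]
    refine h.trans (Finset.sum_le_sum fun i _ => ?_)
    refine mul_le_mul_of_nonneg_left ?_ (Ex_nonneg hs (VI_nonneg K n (k + 1) i))
    have e3 : (fun ω => |D i (fI K n) ω|) = D i (fI K n) := by
      funext ω
      exact abs_of_nonneg (D_nonneg hd K n i ω)
    rw [e3]
    have h0 := Ex_nonneg hs (D_nonneg hd K n i)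
    have h1 : p * (1 - p) ≤ 1 := by nlinarith
    calc p * (1 - p) * Ex (fun _ : dom K n => p) (D i (fI K n))
        ≤ 1 * Ex (fun _ : dom K n => p) (D i (fI K n)) := mul_le_mul_of_nonneg_right h1 h0
      _ = _ := one_mul _
  have hsum := Finset.sum_le_sum hk
  rw [Finset.sum_const, Finset.card_range, nsmul_eq_mul, Finset.sum_comm] at hsum
  refine hsum.trans ?_
  unfold dth
  rw [Finset.mul_sum]
  refine Finset.sum_le_sum fun i _ => ?_
  rw [← Finset.sum_mul]
  exact mul_le_mul_of_nonneg_right (reveal_le hd hlaw K n hp0 hp1 i)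
    (Ex_nonneg hs (D_nonneg hd K n i))

theorem theta_zero_le {K : Finset (Fin d → ℤ)} (hK : K.Nonempty) {p : ℝ}
    (hp0 : 0 ≤ p) (hp1 : p ≤ 1) : theta d K 0 p ≤ p := by
  obtain ⟨k, hk⟩ := hK
  have h1 : (mu d p).real {η : (Fin d → ℤ) → Bool | η k = true} = p := by
    have : {η : (Fin d → ℤ) → Bool | η k = true} =
        Set.pi (({k} : Finset (Fin d → ℤ)) : Set (Fin d → ℤ)) (fun _ => {true}) := by
      ext η
      simp
    rw [this, measureReal_def]
    unfold mu
    rw [Measure.infinitePi_pi _ (fun _ _ => measurableSet_singleton _), Finset.prod_const,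
      Finset.card_singleton, pow_one]
    have := bern_singleton hp0 hp1 true
    rwa [if_pos rfl, measureReal_def] at this
  refine le_trans ?_ h1.le
  unfold theta
  apply measureReal_mono
  · intro η hη
    obtain ⟨s, -, hr⟩ := hη
    have := mem_vac.mp (Reach.left hr) k hk
    simpa using this
  · exact measure_ne_top _ _

/-- The differential inequality, from the elementary properties of `theta` and `S_law`. -/
theorem diff (hbasic : S_basic) (hlaw : S_law) : S_diff := by
  intro d hd K hK a b ha hab hb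
  obtain ⟨h01, hanti, hpos, hmono⟩ := hbasic d hd K
  set t0 : ℝ := theta d K 0 a with ht0
  have ht0pos : 0 < t0 := hpos a ha (by linarith)
  set C : ℝ := K.card * (1 / t0 + (box d 1).card * 2) with hC
  have hKc : (0 : ℝ) < K.card := by exact_mod_cast hK.card_pos
  have hCpos : 0 < C := by
    refine mul_pos hKc (add_pos_of_pos_of_nonneg (by positivity) (by positivity))
  refine ⟨(1 - b) / C, div_pos (by linarith) hCpos, dth K, ?_, ?_⟩
  · intro n x hx
    exact hasDeriv hd K n (by linarith [hx.1]) (by linarith [hx.2])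
  · intro n hn x hx
    have hx0 : 0 ≤ x := by linarith [hx.1]
    have hx1 : x ≤ 1 := by linarith [hx.2]
    set Sn : ℝ := ∑ m ∈ Finset.range n, theta d K m x with hSn
    have hS1 : t0 ≤ Sn := by
      have h1 : t0 ≤ theta d K 0 x :=
        hmono 0 ⟨ha.le, by linarith⟩ ⟨hx0, hx1⟩ hx.1
      refine h1.trans ?_
      exact Finset.single_le_sum (f := fun m => theta d K m x) (fun m _ => (h01 m x).1)
        (Finset.mem_range.mpr (by omega))
    have hSpos : 0 < Sn := lt_of_lt_of_le ht0pos hS1
    have hθb : theta d K n x ≤ b := by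
      have h1 : theta d K n x ≤ theta d K 0 x :=
        (antitone_nat_of_succ_le (f := fun m => theta d K m x) (fun m => hanti m x))
          (Nat.zero_le n)
      exact h1.trans ((theta_zero_le hK hx0 hx1).trans hx.2)
    have hθ0 := (h01 n x).1
    have hmain := osss_theta hd hlaw K n hx0 hx1
    rw [← hSn] at hmain
    have hd0 : 0 ≤ dth K n x :=
      Finset.sum_nonneg fun i _ => Ex_nonneg (par_ok hx0 hx1) (D_nonneg hd K n i)
    have h2 : K.card * (1 + (box d 1).card * (2 * Sn)) ≤ C * Sn := by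
      have h3 : (1 : ℝ) ≤ 1 / t0 * Sn := by
        rw [one_div, inv_mul_eq_div, one_le_div ht0pos]
        exact hS1
      have h4 : C * Sn = K.card * (1 / t0 * Sn + (box d 1).card * (2 * Sn)) := by
        rw [hC]
        ring
      rw [h4]
      exact mul_le_mul_of_nonneg_left (by linarith) hKc.le
    have h5 : (n : ℝ) * (theta d K n x * (1 - b)) ≤ C * Sn * dth K n x := by
      calc (n : ℝ) * (theta d K n x * (1 - b)) ≤ n * (theta d K n x * (1 - theta d K n x)) := by
            refine mul_le_mul_of_nonneg_left ?_ (Nat.cast_nonneg n)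
            exact mul_le_mul_of_nonneg_left (by linarith) hθ0
        _ ≤ _ := hmain
        _ ≤ _ := mul_le_mul_of_nonneg_right h2 hd0
    have h6 : (1 - b) / C * n / Sn * theta d K n x = (n * (theta d K n x * (1 - b))) / (C * Sn) := by
      field_simp
    rw [h6, div_le_iff₀ (mul_pos hCpos hSpos)]
    linarith

end Pool.Agent.Helper774_LP
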