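import Pool.Agent.Helper774_LP.Strat

/-!
# From the product measure to finite sums, and the revealment bound (MP_f368f5_pr)
-/

set_option autoImplicit false

namespace Pool.Agent.Helper774_LP

open Pool.Agent.Helper712_LP Set MeasureTheory ProbabilityTheory
open Pool.Agent.W826.PB (Ex D wt osss Ex_const Ex_mono Ex_nonneg Ex_add Ex_mul Ex_split)

variable {d : ℕ}

theorem bern_singleton {p : ℝ} (hp0 : 0 ≤ p) (hp1 : p ≤ 1) (b : Bool) :
    (bern p).real {b} = if b then p else 1 - p := by
  unfold bern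
  cases b
  · rw [bernoulliMeasure_real_apply_of_notMem_of_mem _ (measurableSet_singleton _) (by simp)
      (by simp)]
    simp [Set.coe_projIcc, hp0, hp1]
  · rw [bernoulliMeasure_real_apply_of_mem_of_notMem _ (measurableSet_singleton _) (by simp)
      (by simp)]
    simp [Set.coe_projIcc, hp0, hp1]

open Classical in
theorem bridge {p : ℝ} (hp0 : 0 ≤ p) (hp1 : p ≤ 1) (B : Finset (Fin d → ℤ))
    (A : Set ((Fin d → ℤ) → Bool))
    (hA : ∀ η η' : (Fin d → ℤ) → Bool, (∀ x ∈ B, η x = η' x) → η ∈ A → η' ∈ A) :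
    (mu d p).real A = Ex (fun _ : B => p) (fun ω => if ext B ω ∈ A then (1 : ℝ) else 0) := by
  have e1 : A = B.restrict ⁻¹' {ω : B → Bool | ext B ω ∈ A} := by
    ext η
    simp only [Set.mem_preimage, Set.mem_ofPred_eq]
    constructor
    · intro h
      refine hA _ _ (fun x hx => ?_) h
      rw [ext_mem _ hx]
      rfl
    · intro h
      refine hA _ _ (fun x hx => ?_) h
      rw [ext_mem _ hx]
      rfl
  have hm : MeasurableSet {ω : B → Bool | ext B ω ∈ A} := (Set.toFinite _).measurableSet
  have e2 : (mu d p).real A = (Measure.pi (fun _ : B => bern p)).real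
      {ω : B → Bool | ext B ω ∈ A} := by
    conv_lhs => rw [e1]
    rw [measureReal_def, measureReal_def]
    unfold mu
    rw [← Measure.map_apply (Finset.measurable_restrict B) hm, Measure.infinitePi_map_restrict]
  rw [e2]
  have e3 : {ω : B → Bool | ext B ω ∈ A} =
      ((Finset.univ.filter (fun ω : B → Bool => ext B ω ∈ A) : Finset (B → Bool)) :
        Set (B → Bool)) := by
    ext ω
    simp
  rw [e3, ← sum_measureReal_singleton, Finset.sum_filter]
  unfold Ex
  refine Finset.sum_congr rfl fun ω _ => ?_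
  dsimp only
  split_ifs
  · rw [mul_one, measureReal_def, Measure.pi_singleton, ENNReal.toReal_prod]
    unfold wt
    refine Finset.prod_congr rfl fun i _ => ?_
    exact bern_singleton hp0 hp1 (ω i)
  · rw [mul_zero]

/-! ### Locality -/

theorem vac_agree {K : Finset (Fin d → ℤ)} {n : ℕ} {η η' : (Fin d → ℤ) → Bool}
    (h : ∀ x ∈ dom K n, η x = η' x) {x : Fin d → ℤ} (hx : nrm x ≤ n)
    (hv : x ∈ vac K (occOf η)) : x ∈ vac K (occOf η') := by
  rw [mem_vac] at hv ⊢
  intro k hk
  rw [← h _ (add_mem_dom hx hk)]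
  exact hv k hk

theorem vb_agree {K : Finset (Fin d → ℤ)} {n : ℕ} {η η' : (Fin d → ℤ) → Bool}
    (h : ∀ x ∈ dom K n, η x = η' x) : vb K n η ⊆ vb K n η' :=
  fun _ hx => ⟨vac_agree h hx.2 hx.1, hx.2⟩

theorem theta_eq (hd : 1 ≤ d) (K : Finset (Fin d → ℤ)) (n : ℕ) {p : ℝ} (hp0 : 0 ≤ p)
    (hp1 : p ≤ 1) : theta d K n p = Ex (fun _ : dom K n => p) (fI K n) := by
  unfold theta
  rw [bridge hp0 hp1 (dom K n)]
  · rfl
  · intro η η' h hc
    refine conn_of_agree hd (fun x hx hxn => ?_) hc
    rw [sub_zero] at hxn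
    exact vac_agree h hxn hx

/-- Translation invariance, from `S_law`. -/
theorem theta_trans (hlaw : S_law) (K : Finset (Fin d → ℤ)) (n : ℕ) {p : ℝ} (hp0 : 0 ≤ p)
    (hp1 : p ≤ 1) (y : Fin d → ℤ) :
    (mu d p).real {η | Conn (vac K (occOf η)) y n} = theta d K n p := by
  have hm : ∀ z : Fin d → ℤ, MeasurableSet {η : (Fin d → ℤ) → Bool | z ∈ occOf η} := by
    intro z
    have : {η : (Fin d → ℤ) → Bool | z ∈ occOf η} = (fun η => η z) ⁻¹' {false} := by
      ext η
      simp [occOf]
    rw [this]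
    exact (measurable_pi_apply z) (measurableSet_singleton _)
  have h := hlaw d ((Fin d → ℤ) → Bool) (mu d p) (fun η => occOf η) p hp0 hp1 hm (by
    intro F
    have : {η : (Fin d → ℤ) → Bool | ∀ z ∈ F, z ∉ occOf η} =
        Set.pi (F : Set (Fin d → ℤ)) (fun _ => {true}) := by
      ext η
      simp [occOf, Set.mem_pi]
    rw [this]
    unfold mu
    rw [Measure.infinitePi_pi _ (fun _ _ => measurableSet_singleton _)]
    rw [Finset.prod_const, ENNReal.ofReal_pow hp0]
    congr 1
    have h1 := bern_singleton hp0 hp1 true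
    rw [if_pos rfl, measureReal_def] at h1
    rw [← ENNReal.ofReal_toReal (measure_ne_top (bern p) {true}), h1]) K y n
  rw [measureReal_def, h, ENNReal.toReal_ofReal]
  unfold theta
  exact measureReal_nonneg

open Classical in
/-- The probability that `y` is connected to the sphere of radius `k` in the box. -/
theorem touch_le (hd : 1 ≤ d) (hlaw : S_law) (K : Finset (Fin d → ℤ)) (n k m : ℕ) {p : ℝ}
    (hp0 : 0 ≤ p) (hp1 : p ≤ 1) (y : Fin d → ℤ) (hm : m + nrm y ≤ k ∨ m + k ≤ nrm y) :
    Ex (fun _ : dom K n => p) (fun ω =>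
      if Touch K n k (ext (dom K n) ω) y then (1 : ℝ) else 0) ≤ theta d K m p := by
  have h1 := bridge hp0 hp1 (dom K n) {η | Touch K n k η y} (by
    rintro η η' h ⟨s, hs, hsy⟩
    exact ⟨s, hs, Reach.mono (vb_agree h) hsy⟩)
  have h2 : (mu d p).real {η | Touch K n k η y} ≤
      (mu d p).real {η | Conn (vac K (occOf η)) y m} := by
    apply measureReal_mono
    · rintro η ⟨s, hs, hsy⟩
      refine (conn_iff hd).mpr ⟨s, ?_, Reach.mono (fun x hx => hx.1) (Reach.symm' hsy)⟩
      have e1 : nrm s ≤ nrm (s - y) + nrm y := by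
        have := nrm_add_le (s - y) y
        rwa [sub_add_cancel] at this
      have e2 : nrm y ≤ nrm (s - y) + nrm s := by
        have := nrm_add_le (y - s) s
        rw [sub_add_cancel, nrm_sub_comm] at this
        exact this
      rcases hm with hm | hm <;> omega
    · exact measure_ne_top _ _
  rw [theta_trans hlaw K m hp0 hp1 y, h1] at h2
  exact h2

end Pool.Agent.Helper774_LP
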