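import Pool.Agent.Helper712_LP.Stmts

/-!
# Lattice geometry for the differential inequality (MP_f368f5_pr)
-/

set_option autoImplicit false

namespace Pool.Agent.Helper774_LP

open Pool.Agent.Helper712_LP Set

variable {d : ℕ}

/-- The maximum norm on the lattice. -/
def nrm (x : Fin d → ℤ) : ℕ := Finset.univ.sup (fun j => (x j).natAbs)

theorem nrm_le {x : Fin d → ℤ} {n : ℕ} : nrm x ≤ n ↔ ∀ j, (x j).natAbs ≤ n := by
  unfold nrm
  simp [Finset.sup_le_iff]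

theorem natAbs_le_nrm (x : Fin d → ℤ) (j : Fin d) : (x j).natAbs ≤ nrm x :=
  nrm_le.mp le_rfl j

theorem nrm_zero : nrm (0 : Fin d → ℤ) = 0 := by
  apply Nat.le_zero.mp
  rw [nrm_le]
  simp

theorem le_nrm (hd : 1 ≤ d) {x : Fin d → ℤ} {n : ℕ} : n ≤ nrm x ↔ ∃ j, (n : ℤ) ≤ |x j| := by
  have : Nonempty (Fin d) := ⟨⟨0, hd⟩⟩
  constructor
  · intro h
    obtain ⟨j, -, hj⟩ := Finset.exists_mem_eq_sup (Finset.univ : Finset (Fin d))
      Finset.univ_nonempty (fun j => (x j).natAbs)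
    refine ⟨j, ?_⟩
    have h1 : nrm x = (x j).natAbs := hj
    rw [Int.abs_eq_natAbs]
    exact_mod_cast h1 ▸ h
  · rintro ⟨j, hj⟩
    refine le_trans ?_ (natAbs_le_nrm x j)
    rw [Int.abs_eq_natAbs] at hj
    exact_mod_cast hj

theorem nrm_add_le (x y : Fin d → ℤ) : nrm (x + y) ≤ nrm x + nrm y := by
  rw [nrm_le]
  intro j
  have h1 := natAbs_le_nrm x j
  have h2 := natAbs_le_nrm y j
  have h3 : ((x + y) j).natAbs ≤ (x j).natAbs + (y j).natAbs := by
    rw [Pi.add_apply]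
    exact Int.natAbs_add_le _ _
  omega

theorem nrm_neg (x : Fin d → ℤ) : nrm (-x) = nrm x := by
  unfold nrm
  simp

theorem nrm_sub_comm (x y : Fin d → ℤ) : nrm (x - y) = nrm (y - x) := by
  rw [← nrm_neg, neg_sub]

theorem adj_iff {a b : Fin d → ℤ} : adj a b ↔ nrm (a - b) ≤ 1 := by
  unfold adj
  rw [nrm_le]
  constructor
  · intro h j
    have := h j
    rw [Int.abs_eq_natAbs] at this
    rw [Pi.sub_apply]
    exact_mod_cast this
  · intro h j
    have := h j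
    rw [Int.abs_eq_natAbs]
    rw [Pi.sub_apply] at this
    exact_mod_cast this

theorem adj_symm {a b : Fin d → ℤ} (h : adj a b) : adj b a := by
  rw [adj_iff] at h ⊢
  rwa [nrm_sub_comm]

theorem nrm_adj {a b c : Fin d → ℤ} (h : adj a b) : nrm (b - c) ≤ nrm (a - c) + 1 := by
  rw [adj_iff, nrm_sub_comm] at h
  have : b - c = (a - c) + (b - a) := by abel
  rw [this]
  exact (nrm_add_le _ _).trans (by omega)

/-! ### Paths -/

theorem Reach.left {U : Set (Fin d → ℤ)} {a b : Fin d → ℤ} (h : Reach U a b) : a ∈ U := h.1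

theorem Reach.right {U : Set (Fin d → ℤ)} {a b : Fin d → ℤ} (h : Reach U a b) : b ∈ U := by
  obtain ⟨h1, h2⟩ := h
  induction h2 with
  | refl => exact h1
  | tail _ h _ => exact h.2

theorem Reach.self {U : Set (Fin d → ℤ)} {a : Fin d → ℤ} (h : a ∈ U) : Reach U a a :=
  ⟨h, Relation.ReflTransGen.refl⟩

theorem Reach.step {U : Set (Fin d → ℤ)} {a b c : Fin d → ℤ} (h : Reach U a b) (hbc : adj b c)
    (hc : c ∈ U) : Reach U a c := ⟨h.1, h.2.tail ⟨hbc, hc⟩⟩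

theorem Reach.trans' {U : Set (Fin d → ℤ)} {a b c : Fin d → ℤ} (h : Reach U a b)
    (h' : Reach U b c) : Reach U a c := ⟨h.1, h.2.trans h'.2⟩

theorem Reach.mono {U V : Set (Fin d → ℤ)} (hUV : U ⊆ V) {a b : Fin d → ℤ} (h : Reach U a b) :
    Reach V a b := by
  refine ⟨hUV h.1, ?_⟩
  exact Relation.ReflTransGen.mono (fun x y hxy => ⟨hxy.1, hUV hxy.2⟩) a b h.2

theorem Reach.symm' {U : Set (Fin d → ℤ)} {a b : Fin d → ℤ} (h : Reach U a b) : Reach U b a := by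
  obtain ⟨h1, h2⟩ := h
  induction h2 with
  | refl => exact Reach.self h1
  | @tail b c hb hbc ih =>
    have hbU : b ∈ U := Reach.right ⟨h1, hb⟩
    exact Reach.trans' ⟨hbc.2, Relation.ReflTransGen.single ⟨adj_symm hbc.1, hbU⟩⟩ ih

/-- First exit from a ball. -/
theorem first_exit {U : Set (Fin d → ℤ)} {c z z' : Fin d → ℤ} {m : ℕ} (h : Reach U z z')
    (hz : nrm (z - c) ≤ m) :
    Reach (U ∩ {x | nrm (x - c) ≤ m}) z z' ∨
      ∃ s, nrm (s - c) = m ∧ Reach (U ∩ {x | nrm (x - c) ≤ m}) z s := by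
  obtain ⟨h1, h2⟩ := h
  induction h2 with
  | refl => exact Or.inl (Reach.self ⟨h1, hz⟩)
  | @tail b e hb hbe ih =>
    rcases ih with ih | ih
    · have hbm : nrm (b - c) ≤ m := (Reach.right ih).2
      by_cases hm : nrm (b - c) = m
      · exact Or.inr ⟨b, hm, ih⟩
      · left
        have h3 := nrm_adj (c := c) hbe.1
        refine Reach.step ih hbe.1 ⟨hbe.2, ?_⟩
        show nrm (e - c) ≤ m
        omega
    · exact Or.inr ih

theorem hit_sphere {U : Set (Fin d → ℤ)} {c z z' : Fin d → ℤ} {m : ℕ} (h : Reach U z z')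
    (hz : nrm (z - c) ≤ m) (hz' : m ≤ nrm (z' - c)) :
    ∃ s, nrm (s - c) = m ∧ Reach (U ∩ {x | nrm (x - c) ≤ m}) z s := by
  rcases first_exit h hz with h1 | h1
  · have := (Reach.right h1).2
    exact ⟨z', le_antisymm this hz', h1⟩
  · exact h1

theorem conn_iff (hd : 1 ≤ d) {U : Set (Fin d → ℤ)} {z : Fin d → ℤ} {n : ℕ} :
    Conn U z n ↔ ∃ s, n ≤ nrm (s - z) ∧ Reach U z s := by
  unfold Conn
  constructor
  · rintro ⟨s, hs, h⟩
    exact ⟨s, (le_nrm hd).mpr hs, h⟩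
  · rintro ⟨s, hs, h⟩
    exact ⟨s, (le_nrm hd).mp hs, h⟩

theorem conn_box (hd : 1 ≤ d) {U : Set (Fin d → ℤ)} {z : Fin d → ℤ} {n : ℕ} (h : Conn U z n) :
    ∃ s, nrm (s - z) = n ∧ Reach (U ∩ {x | nrm (x - z) ≤ n}) z s := by
  obtain ⟨s, hs, h⟩ := (conn_iff hd).mp h
  exact hit_sphere h (by rw [sub_self, nrm_zero]; omega) hs

theorem conn_of_agree (hd : 1 ≤ d) {U V : Set (Fin d → ℤ)} {z : Fin d → ℤ} {n : ℕ}
    (hUV : ∀ x ∈ U, nrm (x - z) ≤ n → x ∈ V) (h : Conn U z n) : Conn V z n := by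
  obtain ⟨s, hs, h⟩ := conn_box hd h
  exact (conn_iff hd).mpr ⟨s, hs.ge, Reach.mono (fun x hx => hUV x hx.1 hx.2) h⟩

end Pool.Agent.Helper774_LP
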