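import Pool.Agent.Helper712_LP.Stmts2
import Pool.Agent.Helper712_LP.Meas
import Pool.Agent.Helper114_LP.MeasLaw

/-!
# MP_f368f5_pr: no percolation implies that the connection probabilities tend to zero
-/

set_option autoImplicit false

namespace Pool.Agent.Helper774_LP

open Pool.Agent.Helper712_LP
open MeasureTheory ProbabilityTheory Set Filter Topology
open scoped ENNReal NNReal

variable {d : ℕ}

/-- The closed cell. -/
def ccell {d : ℕ} (ε : ℝ) (z : Fin d → ℤ) : Set (E d) :=
  {y | ∀ j, ε * (z j : ℝ) ≤ y j ∧ y j ≤ ε * ((z j : ℝ) + 1)}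

theorem ccell_preconnected (ε : ℝ) (z : Fin d → ℤ) : IsPreconnected (ccell ε z) := by
  refine Convex.isPreconnected ?_
  intro x hx y hy a b ha hb hab j
  have h1 := hx j
  have h2 := hy j
  have e : (a • x + b • y) j = a * x j + b * y j := by simp
  rw [e]
  have hb' : b = 1 - a := by linarith
  constructor
  · have := mul_le_mul_of_nonneg_left h1.1 ha
    have := mul_le_mul_of_nonneg_left h2.1 hb
    calc ε * (z j : ℝ) = a * (ε * z j) + b * (ε * z j) := by rw [hb']; ring
      _ ≤ _ := by linarith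
  · have := mul_le_mul_of_nonneg_left h1.2 ha
    have := mul_le_mul_of_nonneg_left h2.2 hb
    calc a * x j + b * y j ≤ a * (ε * ((z j : ℝ) + 1)) + b * (ε * ((z j : ℝ) + 1)) := by linarith
      _ = _ := by rw [hb']; ring

theorem corner_mem_ccell {ε : ℝ} (hε : 0 < ε) (z : Fin d → ℤ) : corner ε z ∈ ccell ε z := by
  intro j
  have e : (corner ε z) j = ε * (z j : ℝ) := by simp [corner]
  rw [e]
  constructor
  · exact le_rfl
  · nlinarith

theorem norm_sub_corner_ccell {ε : ℝ} (hε : 0 < ε) {z : Fin d → ℤ} {x : E d}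
    (hx : x ∈ ccell ε z) : ‖x - corner ε z‖ ≤ ε * Real.sqrt d := by
  rw [EuclideanSpace.norm_eq]
  have h1 : ∑ i, ‖(x - corner ε z) i‖ ^ 2 ≤ ∑ _i : Fin d, ε ^ 2 := by
    refine Finset.sum_le_sum fun j _ => ?_
    have e : (x - corner ε z) j = x j - ε * (z j : ℝ) := by
      simp [corner]
    rw [e, Real.norm_eq_abs, sq_abs]
    have f1 := (hx j).1
    have f2 := (hx j).2
    have h5 : 0 ≤ x j - ε * (z j : ℝ) := by linarith
    have h6 : x j - ε * (z j : ℝ) ≤ ε := by linarith
    exact pow_le_pow_left₀ h5 h6 2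
  rw [Finset.sum_const, Finset.card_univ, Fintype.card_fin, nsmul_eq_mul] at h1
  calc Real.sqrt (∑ i, ‖(x - corner ε z) i‖ ^ 2) ≤ Real.sqrt (d * ε ^ 2) :=
        Real.sqrt_le_sqrt h1
    _ = ε * Real.sqrt d := by
        rw [Real.sqrt_mul (Nat.cast_nonneg d), Real.sqrt_sq hε.le, mul_comm]

/-- The closed vacant cells are in the vacant region. -/
theorem ccell_subset_vacant {ε ρ r' : ℝ} (hε : 0 < ε) (hρ : r' + 2 * (ε * Real.sqrt d) < ρ)
    (closed : Bool) {y : ℕ → E d} {z : Fin d → ℤ}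
    (hz : z ∈ vac (Kfin d ε ρ hε) (occ ε y)) : ccell ε z ⊆ vacant closed r' y := by
  intro p hp
  have key : ∀ i, r' < ‖p - y i‖ := by
    intro i
    by_contra hcon
    push Not at hcon
    have h1 := norm_sub_corner_ccell hε hp
    have h2 := norm_sub_corner hε (y i)
    have hk : ρ ≤ ‖corner ε (cell ε (y i) - z)‖ := by
      by_contra hlt
      push Not at hlt
      refine hz (cell ε (y i) - z) (mem_Kfin.mpr hlt) ⟨i, ?_⟩
      abel
    rw [← corner_sub] at hk
    have e : corner ε (cell ε (y i)) - corner ε z =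
        (p - corner ε z) - (y i - corner ε (cell ε (y i))) - (p - y i) := by abel
    have h5 : ‖corner ε (cell ε (y i)) - corner ε z‖ ≤ ‖p - corner ε z‖ +
        ‖y i - corner ε (cell ε (y i))‖ + ‖p - y i‖ := by
      rw [e]
      exact (norm_sub_le _ _).trans (add_le_add (norm_sub_le _ _) le_rfl)
    linarith
  unfold vacant detected
  rw [mem_compl_iff, mem_iUnion]
  rintro ⟨i, hi⟩
  have hi' : dist p (y i) ≤ r' := by
    unfold nodeBall at hi
    split_ifs at hi
    · exact hi
    · exact le_of_lt hi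
  rw [dist_eq_norm] at hi'
  exact absurd hi' (not_le.mpr (key i))

theorem ccell_inter {ε : ℝ} (hε : 0 < ε) {a b : Fin d → ℤ} (h : adj a b) :
    ∃ q, q ∈ ccell ε a ∧ q ∈ ccell ε b := by
  refine ⟨corner ε (fun j => max (a j) (b j)), ?_, ?_⟩
  · intro j
    have e : (corner ε (fun j => max (a j) (b j))) j = ε * ((max (a j) (b j) : ℤ) : ℝ) := by
      simp [corner]
    rw [e]
    have h1 := abs_le.mp (h j)
    have h2 : a j ≤ max (a j) (b j) := le_max_left _ _
    have h3 : max (a j) (b j) ≤ a j + 1 := by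
      rw [max_le_iff]; constructor <;> omega
    have h2' : (a j : ℝ) ≤ ((max (a j) (b j) : ℤ) : ℝ) := by exact_mod_cast h2
    have h3' : ((max (a j) (b j) : ℤ) : ℝ) ≤ (a j : ℝ) + 1 := by exact_mod_cast h3
    exact ⟨mul_le_mul_of_nonneg_left h2' hε.le, mul_le_mul_of_nonneg_left h3' hε.le⟩
  · intro j
    have e : (corner ε (fun j => max (a j) (b j))) j = ε * ((max (a j) (b j) : ℤ) : ℝ) := by
      simp [corner]
    rw [e]
    have h1 := abs_le.mp (h j)
    have h2 : b j ≤ max (a j) (b j) := le_max_right _ _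
    have h3 : max (a j) (b j) ≤ b j + 1 := by
      rw [max_le_iff]; constructor <;> omega
    have h2' : (b j : ℝ) ≤ ((max (a j) (b j) : ℤ) : ℝ) := by exact_mod_cast h2
    have h3' : ((max (a j) (b j) : ℤ) : ℝ) ≤ (b j : ℝ) + 1 := by exact_mod_cast h3
    exact ⟨mul_le_mul_of_nonneg_left h2' hε.le, mul_le_mul_of_nonneg_left h3' hε.le⟩

/-- The deterministic part. -/
theorem unbounded_of_conn {ε ρ r' : ℝ} (hε : 0 < ε) (hρ : r' + 2 * (ε * Real.sqrt d) < ρ)
    (closed : Bool) {y : ℕ → E d}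
    (h : ∀ n, Conn (vac (Kfin d ε ρ hε) (occ ε y)) 0 n) :
    HasUnboundedComponent (vacant closed r' y) := by
  set U := vac (Kfin d ε ρ hε) (occ ε y) with hU
  set V := vacant closed r' y with hV
  have h0 : (0 : Fin d → ℤ) ∈ U := by
    obtain ⟨z', _, hr⟩ := h 0
    exact hr.1
  have hp0 : corner ε (0 : Fin d → ℤ) ∈ V :=
    ccell_subset_vacant hε hρ closed h0 (corner_mem_ccell hε _)
  have hreach : ∀ z, Relation.ReflTransGen (fun a b => adj a b ∧ b ∈ U) 0 z →
      ccell ε z ⊆ connectedComponentIn V (corner ε (0 : Fin d → ℤ)) := by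
    intro z hz
    induction hz with
    | refl =>
      exact (ccell_preconnected ε _).subset_connectedComponentIn (corner_mem_ccell hε _)
        (ccell_subset_vacant hε hρ closed h0)
    | @tail b c hab hbc ih =>
      obtain ⟨q, hq1, hq2⟩ := ccell_inter hε hbc.1
      have h1 := ih hq1
      rw [connectedComponentIn_eq h1]
      exact (ccell_preconnected ε _).subset_connectedComponentIn hq2
        (ccell_subset_vacant hε hρ closed hbc.2)
  refine ⟨corner ε (0 : Fin d → ℤ), hp0, fun hb => ?_⟩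
  obtain ⟨R, hR⟩ := hb.exists_norm_le
  obtain ⟨n, hn⟩ := exists_nat_gt (R / ε)
  obtain ⟨z', ⟨j, hj⟩, hr⟩ := h n
  have h1 := hR _ (hreach z' hr.2 (corner_mem_ccell hε z'))
  have h2 := abs_le_norm_corner ε hε z' j
  have h3 : (n : ℝ) ≤ |(z' j : ℝ)| := by
    have : (n : ℤ) ≤ |z' j| := by simpa using hj
    exact_mod_cast this
  rw [div_lt_iff₀ hε] at hn
  nlinarith

theorem perc : S_exists → S_void → S_law → S_perc := by
  intro hex hvoid hlaw d hd closed r' lam hlam hperc ε ρ hε hρ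
  obtain ⟨Ω, mΩ, P, hP, x, hx⟩ := hex d hd lam hlam
  set p : ℝ := Real.exp (-(lam * ε ^ d)) with hp
  have hp0 : 0 ≤ p := (Real.exp_pos _).le
  have hp1 : p ≤ 1 := by
    rw [hp]
    exact Real.exp_le_one_iff.mpr (by
      have : 0 ≤ (lam : ℝ) * ε ^ d := by positivity
      linarith)
  set O : Ω → Set (Fin d → ℤ) := fun ω => occ ε (fun i => x i ω) with hO
  have hOm : ∀ z, MeasurableSet {ω | z ∈ O ω} := fun z =>
    (measurableSet_occ ε z).preimage (measurable_pi_lambda _ fun i => hx.measurable i)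
  set K := Kfin d ε ρ hε with hK
  set A : ℕ → Set Ω := fun n => {ω | Conn (vac K (O ω)) 0 n} with hA
  have hAm : ∀ n, MeasurableSet (A n) := fun n =>
    Pool.Agent.Helper114_LP.measConn d Ω mΩ O hOm K 0 n
  have hAP : ∀ n, P (A n) = ENNReal.ofReal (theta d K n p) := fun n =>
    hlaw d Ω P O p hp0 hp1 hOm (fun F => hvoid d Ω P lam x hx ε hε F) K 0 n
  have hAanti : Antitone A := by
    intro m n hmn ω hω
    obtain ⟨z', ⟨j, hj⟩, hr⟩ := hω
    exact ⟨z', ⟨j, le_trans (by exact_mod_cast hmn) hj⟩, hr⟩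
  have hnull : P (⋂ n, A n) = 0 := by
    have hsub : (⋂ n, A n) ⊆ {ω | HasUnboundedComponent (vacant closed r' (fun i => x i ω))} := by
      intro ω hω
      rw [mem_iInter] at hω
      exact unbounded_of_conn hε hρ closed hω
    refine measure_mono_null hsub ?_
    by_contra hne
    exact hperc ⟨Ω, mΩ, P, hP, x, hx, pos_iff_ne_zero.mpr hne⟩
  have hlim : Tendsto (fun n => P (A n)) atTop (𝓝 (P (⋂ n, A n))) :=
    tendsto_measure_iInter_atTop (fun n => (hAm n).nullMeasurableSet) hAanti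
      ⟨0, measure_ne_top P _⟩
  rw [hnull] at hlim
  have h2 : Tendsto (fun n => (P (A n)).toReal) atTop (𝓝 (0 : ℝ≥0∞).toReal) :=
    (ENNReal.tendsto_toReal ENNReal.zero_ne_top).comp hlim
  rw [ENNReal.toReal_zero] at h2
  refine h2.congr fun n => ?_
  rw [hAP n, ENNReal.toReal_ofReal]
  exact measureReal_nonneg

end Pool.Agent.Helper774_LP
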