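import Pool.Agent.Helper774_LP.Geo
import Pool.Agent.W826.PB.Osss
import Pool.Agent.W925.PB.Russo

/-!
# The exploration of the vacant clusters of a sphere (MP_f368f5_pr)
-/

set_option autoImplicit false

namespace Pool.Agent.Helper774_LP

open Pool.Agent.Helper712_LP Set
open Pool.Agent.W826.PB (Ex D wt osss Ex_const Ex_mono Ex_nonneg Ex_add Ex_mul Ex_split)

variable {d : ℕ}

/-- The box of radius `n`. -/
noncomputable def box (d n : ℕ) : Finset (Fin d → ℤ) :=
  Fintype.piFinset (fun _ => Finset.Icc (-(n : ℤ)) n)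

theorem mem_box {n : ℕ} {x : Fin d → ℤ} : x ∈ box d n ↔ nrm x ≤ n := by
  unfold box
  rw [nrm_le, Fintype.mem_piFinset]
  constructor
  · intro h j
    have := h j
    rw [Finset.mem_Icc] at this
    omega
  · intro h j
    have := h j
    rw [Finset.mem_Icc]
    omega

/-- The sites on which the events in the box of radius `n` depend. -/
noncomputable def dom (K : Finset (Fin d → ℤ)) (n : ℕ) : Finset (Fin d → ℤ) :=
  (box d n ×ˢ K).image (fun q => q.1 + q.2)

theorem add_mem_dom {K : Finset (Fin d → ℤ)} {n : ℕ} {x k : Fin d → ℤ} (hx : nrm x ≤ n)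
    (hk : k ∈ K) : x + k ∈ dom K n := by
  unfold dom
  rw [Finset.mem_image]
  exact ⟨(x, k), Finset.mem_product.mpr ⟨mem_box.mpr hx, hk⟩, rfl⟩

/-- Extension of a configuration by unoccupied sites. -/
noncomputable def ext (B : Finset (Fin d → ℤ)) (ω : B → Bool) : (Fin d → ℤ) → Bool :=
  fun x => if h : x ∈ B then ω ⟨x, h⟩ else true

theorem ext_mem {B : Finset (Fin d → ℤ)} (ω : B → Bool) {x : Fin d → ℤ} (h : x ∈ B) :
    ext B ω x = ω ⟨x, h⟩ := by
  unfold ext
  simp [h]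

theorem mem_vac {K : Finset (Fin d → ℤ)} {η : (Fin d → ℤ) → Bool} {x : Fin d → ℤ} :
    x ∈ vac K (occOf η) ↔ ∀ k ∈ K, η (x + k) = true := by
  unfold vac occOf
  simp

/-- The vacant sites of the box. -/
def vb (K : Finset (Fin d → ℤ)) (n : ℕ) (η : (Fin d → ℤ) → Bool) : Set (Fin d → ℤ) :=
  vac K (occOf η) ∩ {x | nrm x ≤ n}

/-- The site `y` is connected to the sphere of radius `k` by vacant sites of the box. -/
def Touch (K : Finset (Fin d → ℤ)) (n k : ℕ) (η : (Fin d → ℤ) → Bool) (y : Fin d → ℤ) : Prop :=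
  ∃ s, nrm s = k ∧ Reach (vb K n η) s y

/-- The site `i` is revealed. -/
def Rev (K : Finset (Fin d → ℤ)) (n k : ℕ) (η : (Fin d → ℤ) → Bool) (i : Fin d → ℤ) : Prop :=
  ∃ x, nrm x ≤ n ∧ i - x ∈ K ∧ (nrm x = k ∨ ∃ y, adj y x ∧ Touch K n k η y)

open Classical in
/-- The indicator of the connection event. -/
noncomputable def fI (K : Finset (Fin d → ℤ)) (n : ℕ) (ω : dom K n → Bool) : ℝ :=
  if Conn (vac K (occOf (ext (dom K n) ω))) 0 n then 1 else 0

open Classical in
/-- The indicator that `i` is revealed. -/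
noncomputable def VI (K : Finset (Fin d → ℤ)) (n k : ℕ) (i : dom K n) (ω : dom K n → Bool) : ℝ :=
  if Rev K n k (ext (dom K n) ω) i then 1 else 0

theorem fI_mem (K : Finset (Fin d → ℤ)) (n : ℕ) (ω : dom K n → Bool) :
    0 ≤ fI K n ω ∧ fI K n ω ≤ 1 := by
  unfold fI
  split_ifs <;> norm_num

theorem fI_sq (K : Finset (Fin d → ℤ)) (n : ℕ) (ω : dom K n → Bool) :
    fI K n ω * fI K n ω = fI K n ω := by
  unfold fI
  split_ifs <;> norm_num

theorem VI_nonneg (K : Finset (Fin d → ℤ)) (n k : ℕ) (i : dom K n) (ω : dom K n → Bool) :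
    0 ≤ VI K n k i ω := by
  unfold VI
  split_ifs <;> norm_num

theorem strategy (hd : 1 ≤ d) (K : Finset (Fin d → ℤ)) {n k : ℕ} (hk : k ≤ n)
    (s : dom K n → ℝ) (S : Finset (dom K n)) (σ : dom K n → Bool) :
    (∀ ω ω' : dom K n → Bool, fI K n (S.piecewise σ ω) = fI K n (S.piecewise σ ω')) ∨
      ∃ i ∉ S, 1 ≤ Ex s (fun ω => VI K n k i (S.piecewise σ ω)) := by
  classical
  set kv : Set (Fin d → ℤ) := {x | nrm x ≤ n ∧ ∀ k' ∈ K, ∃ hx : x + k' ∈ dom K n,
    (⟨x + k', hx⟩ : dom K n) ∈ S ∧ σ ⟨x + k', hx⟩ = true} with hkv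
  have hval : ∀ (ω : dom K n → Bool) (x : Fin d → ℤ) (hx : x ∈ dom K n),
      (⟨x, hx⟩ : dom K n) ∈ S → ext (dom K n) (S.piecewise σ ω) x = σ ⟨x, hx⟩ := by
    intro ω x hx hS
    rw [ext_mem _ hx, Finset.piecewise_eq_of_mem _ _ _ hS]
  have hsub : ∀ ω : dom K n → Bool, kv ⊆ vb K n (ext (dom K n) (S.piecewise σ ω)) := by
    intro ω x hx
    refine ⟨mem_vac.mpr fun k' hk' => ?_, hx.1⟩
    obtain ⟨hx', h1, h2⟩ := hx.2 k' hk'
    rw [hval ω _ hx' h1, h2]
  by_cases h : ∃ x, nrm x ≤ n ∧ (nrm x = k ∨ ∃ y, adj y x ∧ ∃ t, nrm t = k ∧ Reach kv t y) ∧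
      ∃ k' ∈ K, ∃ hx : x + k' ∈ dom K n, (⟨x + k', hx⟩ : dom K n) ∉ S
  · right
    obtain ⟨x, hxn, hx, k', hk', hxd, hxS⟩ := h
    refine ⟨⟨x + k', hxd⟩, hxS, ?_⟩
    have : (fun ω => VI K n k ⟨x + k', hxd⟩ (S.piecewise σ ω)) = fun _ => 1 := by
      funext ω
      unfold VI
      rw [if_pos]
      refine ⟨x, hxn, by simpa using hk', ?_⟩
      rcases hx with hx | ⟨y, hyx, t, ht, hty⟩
      · exact Or.inl hx
      · exact Or.inr ⟨y, hyx, t, ht, Reach.mono (hsub ω) hty⟩
    rw [this, Ex_const]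
  · left
    have h' : ∀ x, nrm x ≤ n → (nrm x = k ∨ ∃ y, adj y x ∧ ∃ t, nrm t = k ∧ Reach kv t y) →
        ∀ k' ∈ K, ∀ hx : x + k' ∈ dom K n, (⟨x + k', hx⟩ : dom K n) ∈ S := by
      intro x h1 h2 k' hk' hx
      by_contra h3
      exact h ⟨x, h1, h2, k', hk', hx, h3⟩
    -- a vacant site which is explored is known to be vacant
    have hkn : ∀ (ω : dom K n → Bool) (x : Fin d → ℤ),
        (nrm x = k ∨ ∃ y, adj y x ∧ ∃ t, nrm t = k ∧ Reach kv t y) →
        x ∈ vb K n (ext (dom K n) (S.piecewise σ ω)) → x ∈ kv := by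
      intro ω x hx hv
      refine ⟨hv.2, fun k' hk' => ?_⟩
      have hxd := add_mem_dom (K := K) hv.2 hk'
      have hS := h' x hv.2 hx k' hk' hxd
      refine ⟨hxd, hS, ?_⟩
      rw [← hval ω _ hxd hS]
      exact mem_vac.mp hv.1 k' hk'
    have hgrow : ∀ (ω : dom K n → Bool) (t y : Fin d → ℤ), nrm t = k →
        Reach (vb K n (ext (dom K n) (S.piecewise σ ω))) t y → Reach kv t y := by
      intro ω t y ht hty
      obtain ⟨h1, h2⟩ := hty
      induction h2 with
      | refl => exact Reach.self (hkn ω t (Or.inl ht) h1)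
      | @tail b c hb hbc ih =>
        exact Reach.step ih hbc.1 (hkn ω c (Or.inr ⟨b, hbc.1, t, ht, ih⟩) hbc.2)
    have main : ∀ ω ω' : dom K n → Bool,
        Conn (vac K (occOf (ext (dom K n) (S.piecewise σ ω)))) 0 n →
        Conn (vac K (occOf (ext (dom K n) (S.piecewise σ ω')))) 0 n := by
      intro ω ω' hc
      obtain ⟨z, hz, hr⟩ := conn_box hd hc
      have hr' : Reach (vb K n (ext (dom K n) (S.piecewise σ ω))) 0 z := by
        refine Reach.mono ?_ hr
        intro x hx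
        refine ⟨hx.1, ?_⟩
        have := hx.2
        simpa using this
      rw [sub_zero] at hz
      obtain ⟨t, ht, hrt⟩ := hit_sphere (c := 0) (m := k) hr' (by simp [nrm_zero])
        (by rw [sub_zero, hz]; exact hk)
      rw [sub_zero] at ht
      have h0t : Reach (vb K n (ext (dom K n) (S.piecewise σ ω))) 0 t :=
        Reach.mono (fun x hx => hx.1) hrt
      have ht0 := Reach.symm' h0t
      have htz := Reach.trans' ht0 hr'
      have g0 := hgrow ω t 0 ht ht0
      have gz := hgrow ω t z ht htz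
      have g0z := Reach.trans' (Reach.symm' g0) gz
      rw [conn_iff hd]
      refine ⟨z, by rw [sub_zero, hz], Reach.mono (fun x hx => ?_) g0z⟩
      exact (hsub ω' hx).1
    intro ω ω'
    unfold fI
    by_cases hc : Conn (vac K (occOf (ext (dom K n) (S.piecewise σ ω)))) 0 n
    · rw [if_pos hc, if_pos (main ω ω' hc)]
    · rw [if_neg hc, if_neg (fun h => hc (main ω' ω h))]

end Pool.Agent.Helper774_LP
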